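/-
A space on which One wins the compact-open game for k-covers with perfect information, but neither
the finite-open game, nor the compact-open game with a predetermined strategy: the disjoint sum of
the one-point Lindelöfication of an uncountable discrete space and the unit interval.
-/
import Mathlib

set_option autoImplicit false

open Set Topology MeasureTheory

namespace Pool.Agent.Results.MP_c6d0b8_gt.SumSpace

universe u

section Games

variable (X : Type u) [TopologicalSpace X]

/-- The sequence `U` of answers of Two is legal against the moves `A` of One. -/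
def Legal {X : Type u} [TopologicalSpace X] (A U : ℕ → Set X) : Prop :=
  ∀ n, IsOpen (U n) ∧ A n ⊆ U n

/-- The moves of One against the sequence of answers `U`, when One plays by `σ`: the move in round
`n` is the value of `σ` on the list of the answers in the rounds before `n`. -/
def moves {X : Type u} (σ : List (Set X) → Set X) (U : ℕ → Set X) (n : ℕ) : Set X :=
  σ (List.ofFn fun i : Fin n => U i)

/-- One wins the play with answers `U` in the game of k-covers: every compact set lies in some
`U n`. -/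
def WinK {X : Type u} [TopologicalSpace X] (U : ℕ → Set X) : Prop :=
  ∀ K : Set X, IsCompact K → ∃ n, K ⊆ U n

/-- One has a winning strategy in `G_1(N[K(X)], not K_X)`. -/
def OneWinsK : Prop :=
  ∃ σ : List (Set X) → Set X, (∀ l, IsCompact (σ l) ∧ (σ l).Nonempty) ∧
    ∀ U : ℕ → Set X, Legal (moves σ U) U → WinK U

/-- One has a winning predetermined strategy in `G_1(N[K(X)], not K_X)`. -/
def OneWinsKPre : Prop :=
  ∃ A : ℕ → Set X, (∀ n, IsCompact (A n) ∧ (A n).Nonempty) ∧
    ∀ U : ℕ → Set X, Legal A U → WinK U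

/-- One has a winning strategy in the finite-open game. -/
def OneWinsFin : Prop :=
  ∃ σ : List (Set X) → Set X, (∀ l, (σ l).Finite) ∧
    ∀ U : ℕ → Set X, Legal (moves σ U) U → ⋃ n, U n = univ

end Games

/-- The points: `pt x` for the points of an uncountable discrete set, `inf` for the extra point,
`seg t` for the points of the unit interval. -/
inductive S : Type
  | pt : ℝ → S
  | inf : S
  | seg : unitInterval → S

instance : TopologicalSpace S where
  IsOpen U := IsOpen (S.seg ⁻¹' U) ∧ (S.inf ∈ U → (S.pt ⁻¹' U)ᶜ.Countable)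
  isOpen_univ := ⟨isOpen_univ, fun _ => by simp⟩
  isOpen_inter := by
    rintro U V ⟨hU1, hU2⟩ ⟨hV1, hV2⟩
    refine ⟨hU1.inter hV1, fun h => ?_⟩
    rw [preimage_inter, compl_inter]
    exact (hU2 h.1).union (hV2 h.2)
  isOpen_sUnion := by
    intro T hT
    refine ⟨?_, ?_⟩
    · rw [preimage_sUnion]
      exact isOpen_biUnion fun U hU => (hT U hU).1
    · rintro ⟨U, hU, h⟩
      exact ((hT U hU).2 h).mono (compl_subset_compl.2 (preimage_mono (subset_sUnion_of_mem hU)))

theorem isOpen_S (U : Set S) : IsOpen U ↔ IsOpen (S.seg ⁻¹' U) ∧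
    (S.inf ∈ U → (S.pt ⁻¹' U)ᶜ.Countable) := Iff.rfl

theorem continuous_seg : Continuous S.seg := by
  rw [continuous_def]
  exact fun U hU => hU.1

/-- the complement of an isolated point is open -/
theorem isOpen_compl_pt (x : ℝ) : IsOpen ({S.pt x}ᶜ : Set S) := by
  rw [isOpen_S]
  constructor
  · have h : S.seg ⁻¹' ({S.pt x}ᶜ : Set S) = univ := by
      ext y
      simp
    rw [h]
    exact isOpen_univ
  · intro _
    have h : (S.pt ⁻¹' ({S.pt x}ᶜ : Set S))ᶜ = {x} := by
      ext y
      simp
    rw [h]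
    exact countable_singleton x

/-- a compact set has finitely many isolated points -/
theorem finite_pt {K : Set S} (hK : IsCompact K) : (S.pt ⁻¹' K).Finite := by
  by_contra hinf
  have hinf' : (S.pt ⁻¹' K).Infinite := hinf
  -- a countably infinite set `D` of isolated points of `K`
  let d := hinf'.natEmbedding
  set D : Set ℝ := range fun n => (d n : ℝ) with hD
  have hDc : D.Countable := countable_range _
  have hopen : ∀ n : ℕ, IsOpen ((S.pt '' D)ᶜ ∪ {S.pt (d n)} : Set S) := by
    intro n
    rw [isOpen_S]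
    constructor
    · have h : S.seg ⁻¹' ((S.pt '' D)ᶜ ∪ {S.pt (d n)} : Set S) = univ := by
        ext y
        simp
      rw [h]
      exact isOpen_univ
    · intro _
      refine hDc.mono ?_
      intro x hx
      by_contra h
      apply hx
      left
      rintro ⟨y, hy, hy'⟩
      cases hy'
      exact h hy
  obtain ⟨t, ht⟩ := hK.elim_finite_subcover _ hopen (by
    intro p hp
    rw [mem_iUnion]
    by_cases h : p ∈ S.pt '' D
    · obtain ⟨_, ⟨n, rfl⟩, rfl⟩ := h
      exact ⟨n, Or.inr rfl⟩
    · exact ⟨0, Or.inl h⟩)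
  obtain ⟨n, hn⟩ := Infinite.exists_notMem_finset t
  have h1 := ht (show S.pt (d n) ∈ K from (d n).2)
  rw [mem_iUnion₂] at h1
  obtain ⟨k, hk, h2 | h2⟩ := h1
  · exact h2 ⟨_, ⟨n, rfl⟩, rfl⟩
  · have h3 : (d n : ℝ) = d k := S.pt.inj h2
    have h4 : n = k := d.injective (Subtype.ext h3)
    exact hn (h4 ▸ hk)

/-- an enumeration of a countable set of reals (constant for other sets) -/
theorem exists_enum : ∃ e : Set ℝ → ℕ → ℝ, ∀ C : Set ℝ, C.Countable → C ⊆ range (e C) := by
  classical
  refine ⟨fun C => if h : C.Countable then Set.enumerateCountable h 0 else fun _ => 0, ?_⟩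
  intro C hC
  simp only [dif_pos hC]
  exact subset_range_enumerate hC 0

/-- the finite set of isolated points used by One -/
noncomputable def fin (e : Set ℝ → ℕ → ℝ) (l : List (Set S)) : Set S :=
  ⋃ U ∈ l, ⋃ j ∈ Iio l.length, {S.pt (e (S.pt ⁻¹' U)ᶜ j)}

theorem finite_fin (e : Set ℝ → ℕ → ℝ) (l : List (Set S)) : (fin e l).Finite := by
  unfold fin
  refine Set.Finite.biUnion (List.finite_toSet l) fun U _ => ?_
  exact (finite_Iio _).biUnion fun j _ => finite_singleton _

theorem one_wins : OneWinsK S := by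
  obtain ⟨e, he⟩ := exists_enum
  refine ⟨fun l => range S.seg ∪ ({S.inf} ∪ fin e l), fun l => ⟨?_, ?_⟩, ?_⟩
  · exact (isCompact_range continuous_seg).union
      (isCompact_singleton.union (finite_fin e l).isCompact)
  · exact ⟨S.inf, Or.inr (Or.inl rfl)⟩
  · intro U hU K hK
    -- all points of `K` outside `⋂ U n` are played by One from some round on
    have hseg : ∀ n t, S.seg t ∈ U n := fun n t => (hU n).2 (Or.inl ⟨t, rfl⟩)
    have hinf : ∀ n, S.inf ∈ U n := fun n => (hU n).2 (Or.inr (Or.inl rfl))
    have hc : ∀ n, (S.pt ⁻¹' U n)ᶜ.Countable := fun n => (hU n).1.2 (hinf n)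
    have hpt : ∀ x : ℝ, ∃ N, ∀ n ≥ N, S.pt x ∈ U n := by
      intro x
      by_cases h : ∃ k, S.pt x ∉ U k
      · obtain ⟨k, hk⟩ := h
        obtain ⟨j, hj⟩ := he _ (hc k) (show x ∈ (S.pt ⁻¹' U k)ᶜ from hk)
        refine ⟨max k j + 1, fun n hn => (hU n).2 (Or.inr (Or.inr ?_))⟩
        have h1 : U k ∈ List.ofFn fun i : Fin n => U i := by
          rw [List.mem_ofFn]
          exact ⟨⟨k, by omega⟩, rfl⟩
        refine mem_iUnion₂.2 ⟨U k, h1, mem_iUnion₂.2 ⟨j, ?_, ?_⟩⟩
        · rw [List.length_ofFn, mem_Iio]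
          omega
        · rw [hj]
          rfl
      · push Not at h
        exact ⟨0, fun n _ => h n⟩
    choose N hN using hpt
    obtain ⟨B, hB⟩ := ((finite_pt hK).image N).bddAbove
    refine ⟨B, fun p hp => ?_⟩
    cases p with
    | pt x => exact hN x B (hB (mem_image_of_mem N hp))
    | inf => exact hinf B
    | seg t => exact hseg B t

theorem not_pre : ¬ OneWinsKPre S := by
  rintro ⟨A, hA, hwin⟩
  have h1 : (⋃ n, S.pt ⁻¹' A n).Countable := countable_iUnion fun n => (finite_pt (hA n).1).countable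
  obtain ⟨x, hx⟩ : ∃ x, x ∉ ⋃ n, S.pt ⁻¹' A n := by
    by_contra hc
    push Not at hc
    rw [← eq_univ_iff_forall] at hc
    rw [hc] at h1
    exact not_countable_univ h1
  obtain ⟨n, hn⟩ := hwin (fun _ => {S.pt x}ᶜ) (fun n => ⟨isOpen_compl_pt x, fun p hp hpx => by
    rw [mem_singleton_iff] at hpx
    rw [hpx] at hp
    exact hx (mem_iUnion.2 ⟨n, hp⟩)⟩) {S.pt x} isCompact_singleton
  exact hn rfl rfl

/-- a finite set has an open neighbourhood with small trace on the interval -/
theorem exists_small (F : Set S) (hF : F.Finite) (ε : ENNReal) (hε : 0 < ε) :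
    ∃ V : Set S, IsOpen V ∧ F ⊆ V ∧ ∃ O : Set ℝ, volume O < ε ∧ ∀ t, S.seg t ∈ V → (t : ℝ) ∈ O := by
  have h1 : ((fun t : unitInterval => (t : ℝ)) '' (S.seg ⁻¹' F)).Finite :=
    (hF.preimage (fun a _ b _ h => S.seg.inj h)).image _
  obtain ⟨O, hO1, hO2, hO3⟩ := Set.exists_isOpen_lt_of_lt (μ := volume)
    ((fun t : unitInterval => (t : ℝ)) '' (S.seg ⁻¹' F)) ε (by
      rw [h1.measure_zero]
      exact hε)
  refine ⟨{p | ∀ t, p = S.seg t → (t : ℝ) ∈ O}, ?_, ?_, O, hO3, fun t ht => ht t rfl⟩
  · rw [isOpen_S]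
    constructor
    · have h : S.seg ⁻¹' {p | ∀ t, p = S.seg t → (t : ℝ) ∈ O} =
          (fun t : unitInterval => (t : ℝ)) ⁻¹' O := by
        ext t
        constructor
        · intro h
          exact h t rfl
        · rintro h t' ht'
          cases ht'
          exact h
      rw [h]
      exact hO2.preimage continuous_subtype_val
    · intro _
      have h : (S.pt ⁻¹' {p | ∀ t, p = S.seg t → (t : ℝ) ∈ O})ᶜ = ∅ := by
        ext y
        simp
      rw [h]
      exact countable_empty
  · rintro p hp t rfl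
    exact hO1 ⟨t, hp, rfl⟩

theorem not_fin : ¬ OneWinsFin S := by
  rintro ⟨σ, hσ, hwin⟩
  obtain ⟨ε, hε, hsum⟩ := ENNReal.exists_pos_sum_of_countable' (one_ne_zero (α := ENNReal)) ℕ
  choose R hR1 hR2 O hO1 hO2 using fun (n : ℕ) (l : List (Set S)) =>
    exists_small (σ l) (hσ l) (ε n) (hε n)
  -- the play
  let L : ℕ → List (Set S) := fun n => Nat.rec [] (fun n l => l ++ [R n l]) n
  have hL : ∀ n, L (n + 1) = L n ++ [R n (L n)] := fun n => rfl
  have hL' : ∀ n, (List.ofFn fun i : Fin n => R i (L i)) = L n := by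
    intro n
    induction n with
    | zero => rfl
    | succ n ih =>
      rw [List.ofFn_succ', hL, ← ih, List.concat_eq_append]
      simp only [Fin.val_castSucc, Fin.val_last]
      rw [ih]
  have hcover := hwin (fun n => R n (L n)) (fun n => ⟨hR1 n _, by
    unfold moves
    rw [hL']
    exact hR2 n _⟩)
  have h1 : Icc (0 : ℝ) 1 ⊆ ⋃ n, O n (L n) := by
    intro t ht
    have h2 : S.seg ⟨t, ht⟩ ∈ ⋃ n, R n (L n) := by rw [hcover]; exact mem_univ _
    obtain ⟨n, hn⟩ := mem_iUnion.1 h2
    exact mem_iUnion.2 ⟨n, hO2 n (L n) _ hn⟩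
  have h2 : (1 : ENNReal) ≤ ∑' n, ε n := by
    calc (1 : ENNReal) = volume (Icc (0 : ℝ) 1) := by simp
      _ ≤ volume (⋃ n, O n (L n)) := measure_mono h1
      _ ≤ ∑' n, volume (O n (L n)) := measure_iUnion_le _
      _ ≤ ∑' n, ε n := ENNReal.tsum_le_tsum fun n => (hO1 n (L n)).le
  exact absurd hsum (not_lt.2 h2)

/-- **Main theorem.** There is a space on which One has a winning strategy in the compact-open game
for k-covers, but neither a winning strategy in the finite-open game nor a winning predetermined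
strategy in the compact-open game for k-covers. -/
theorem result : ∃ (X : Type) (_ : TopologicalSpace X), OneWinsK X ∧ ¬ OneWinsFin X ∧
    ¬ OneWinsKPre X := ⟨S, inferInstance, one_wins, not_fin, not_pre⟩

end Pool.Agent.Results.MP_c6d0b8_gt.SumSpace
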